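import Pool.Agent.H85.Rho.Fin

/-!
# Prime tuples and dense windows, with a growth function

If for every `c < κ` and all large `y` there is an admissible `A ⊆ [1, y]` with
`|A| ≥ π(y) (1 + c G(y))`, and `ρ(y) ≤ π(y) (1 + c₀ G(y))` for infinitely many `y`, then some
admissible `k`-tuple has fewer than `k (1 - c₁ G(k))` primes in every late translate,
`c₀ + c₁ < κ`.  The growth functions `G` tend to zero and are slowly varying; the case
`G(y) = 1 / (log log y * log log log y)` is at the end.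
-/

set_option autoImplicit false

open Finset Real Filter Topology
open Pool.Agent.H85.Rho hiding PP MM TT

namespace RHC

/-- tuples theorem for a growth function `G` -/
theorem tuples_G {κ : ℝ} {G : ℕ → ℝ} (hG0 : Tendsto G atTop (𝓝 0))
    (hGp : ∀ᶠ y : ℕ in atTop, 0 < G y)
    (hGs : ∀ η : ℝ, 0 < η → ∀ᶠ y : ℕ in atTop, ∀ k : ℕ, Real.sqrt y / 2 ≤ k → k ≤ y →
      G k ≤ (1 + η) * G y)
    (hd : ∀ c : ℝ, c < κ → ∀ᶠ y : ℕ in atTop, ∃ A : Finset ℕ, A ⊆ Finset.Icc 1 y ∧ Adm A ∧
      (Nat.primeCounting y : ℝ) * (1 + c * G y) ≤ A.card)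
    {c0 c1 : ℝ} (hc1 : 0 ≤ c1) (hc : c0 + c1 < κ)
    (h : ∀ Y : ℕ, ∃ y : ℕ, Y ≤ y ∧ ∃ X : ℕ, ∀ x : ℕ, X ≤ x →
      (Nat.primeCounting (x + y) : ℝ) - Nat.primeCounting x ≤
        Nat.primeCounting y * (1 + c0 * G y)) (K : ℕ) :
    ∃ A : Finset ℕ, K ≤ A.card ∧ Adm A ∧ ∃ X : ℕ, ∀ x : ℕ, X ≤ x →
      ((A.filter (fun a => (x + a).Prime)).card : ℝ) < A.card * (1 - c1 * G A.card) := by
  set δ : ℝ := κ - (c0 + c1) with hδ
  have hδ0 : 0 < δ := by rw [hδ]; linarith
  set c : ℝ := c0 + c1 + δ / 2 with hcd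
  have hcκ : c < κ := by rw [hcd, hδ]; linarith
  set η : ℝ := δ / (4 * (c1 + 1)) with hη
  have hη0 : 0 < η := by rw [hη]; positivity
  have hη1 : c1 * η ≤ δ / 4 := by
    rw [hη, mul_div_assoc', div_le_div_iff₀ (by positivity) (by norm_num)]
    nlinarith
  -- smallness of `G`
  set T : ℝ := (|c| + 1) * (c1 * (1 + η) + 1) with hT
  have hT1 : 1 ≤ T := by
    have h1 : 0 ≤ c1 * (1 + η) := by positivity
    rw [hT]
    nlinarith [abs_nonneg c]
  have hT0 : 0 < T := by linarith
  set g : ℝ := min (1 / 2) (δ / 8) / T with hg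
  have hg0 : 0 < g := by
    rw [hg]
    apply div_pos _ hT0
    apply lt_min <;> linarith
  have hGsm : ∀ᶠ y : ℕ in atTop, G y < g := hG0.eventually (gt_mem_nhds hg0)
  obtain ⟨Y, hY⟩ := eventually_atTop.1 ((hd c hcκ).and (hGsm.and (hGp.and ((hGs η hη0).and
    (pi_facts.and (eventually_ge_atTop (4 * K ^ 2 + 100)))))))
  obtain ⟨y, hyY, X, hX⟩ := h Y
  obtain ⟨⟨A, hA, hAdm, hAc⟩, hGg, hG, hGs', ⟨_, hpi⟩, hyK⟩ := hY y hyY
  clear hY
  have hTg : T * G y ≤ min (1 / 2) (δ / 8) := by
    have h1 : T * G y ≤ T * g := by gcongr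
    have h2 : T * g = min (1 / 2) (δ / 8) := by rw [hg]; field_simp
    linarith
  have hTg1 : T * G y ≤ 1 / 2 := hTg.trans (min_le_left _ _)
  have hTg2 : T * G y ≤ δ / 8 := hTg.trans (min_le_right _ _)
  have hc1η : 0 ≤ c1 * (1 + η) := by positivity
  have hcT : |c| ≤ T := by rw [hT]; nlinarith [abs_nonneg c]
  have hcG : |c| * G y ≤ 1 / 2 := by
    have : |c| * G y ≤ T * G y := by gcongr
    linarith
  have hc1T : c1 * (1 + η) ≤ T := by rw [hT]; nlinarith [abs_nonneg c]
  have hc1G : c1 * (1 + η) * G y ≤ 1 / 2 := by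
    have : c1 * (1 + η) * G y ≤ T * G y := by gcongr
    linarith
  have hcc : |c| * (c1 * (1 + η)) ≤ T := by rw [hT]; nlinarith [abs_nonneg c]
  have hccG : c * (c1 * (1 + η)) * G y ≤ δ / 8 := by
    have h1 : c * (c1 * (1 + η)) ≤ |c| * (c1 * (1 + η)) := by
      apply mul_le_mul_of_nonneg_right (le_abs_self c) hc1η
    have h2 : c * (c1 * (1 + η)) * G y ≤ T * G y := by
      apply mul_le_mul_of_nonneg_right (h1.trans hcc) hG.le
    linarith
  have hcG' : -(1 / 2) ≤ c * G y := by
    have h1 : -(|c| * G y) ≤ c * G y := by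
      have := mul_le_mul_of_nonneg_right (neg_abs_le c) hG.le
      linarith
    linarith
  -- sizes
  have hy0 : (0 : ℝ) < y := by
    have : 0 < y := by omega
    exact_mod_cast this
  have hsq : 0 < Real.sqrt y := Real.sqrt_pos.2 hy0
  have hpi0 : (0 : ℝ) < Nat.primeCounting y := lt_of_lt_of_le hsq hpi
  have hcardl : Real.sqrt y / 2 ≤ (A.card : ℝ) := by
    have h1 : (Nat.primeCounting y : ℝ) * (1 / 2) ≤ Nat.primeCounting y * (1 + c * G y) := by
      apply mul_le_mul_of_nonneg_left _ hpi0.le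
      linarith
    linarith
  have hcardu : A.card ≤ y := by
    have := Finset.card_le_card hA
    rw [Nat.card_Icc] at this
    omega
  have hk0 : (0 : ℝ) < A.card := by linarith [half_pos hsq]
  have hGk := hGs' A.card hcardl hcardu
  refine ⟨A, ?_, hAdm, X, fun x hx => ?_⟩
  · have h1 : ((2 * K : ℕ) : ℝ) ≤ Real.sqrt y := by
      apply Real.le_sqrt_of_sq_le
      have : (2 * K) ^ 2 ≤ y := by
        have : (2 * K) ^ 2 = 4 * K ^ 2 := by ring
        omega
      exact_mod_cast this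
    have h2 : (K : ℝ) ≤ A.card := by
      push_cast at h1
      linarith
    exact_mod_cast h2
  · have h5 := translate_card A x y hA
    have h5' : (Nat.primeCounting x : ℝ) + ((A.filter (fun a => (x + a).Prime)).card : ℝ) ≤
        Nat.primeCounting (x + y) := by exact_mod_cast h5
    have h6 := hX x hx
    have h7 : ((A.filter (fun a => (x + a).Prime)).card : ℝ) ≤
        Nat.primeCounting y * (1 + c0 * G y) := by linarith
    refine lt_of_le_of_lt h7 ?_
    have h8 : (A.card : ℝ) * (1 - c1 * (1 + η) * G y) ≤ A.card * (1 - c1 * G A.card) := by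
      apply mul_le_mul_of_nonneg_left _ hk0.le
      have : c1 * G A.card ≤ c1 * ((1 + η) * G y) := mul_le_mul_of_nonneg_left hGk hc1
      linarith
    have h9 : (Nat.primeCounting y : ℝ) * (1 + c * G y) * (1 - c1 * (1 + η) * G y) ≤
        A.card * (1 - c1 * (1 + η) * G y) := by
      apply mul_le_mul_of_nonneg_right hAc
      linarith
    refine lt_of_lt_of_le ?_ (h9.trans h8)
    rw [mul_assoc]
    apply mul_lt_mul_of_pos_left _ hpi0
    have h10 : (1 + c * G y) * (1 - c1 * (1 + η) * G y) = 1 + c0 * G y +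
        G y * (c - c0 - c1 - c1 * η - c * (c1 * (1 + η)) * G y) := by ring
    rw [h10]
    have h11 : 0 < c - c0 - c1 - c1 * η - c * (c1 * (1 + η)) * G y := by
      have : c - c0 - c1 = δ / 2 := by rw [hcd]; ring
      linarith
    have := mul_pos hG h11
    linarith

/-- the growth function `1 / (log log y * log log log y)` -/
noncomputable def Gll (y : ℕ) : ℝ := 1 / (Real.log (Real.log y) * Real.log (Real.log (Real.log y)))

theorem ll_top : Tendsto (fun y : ℕ => Real.log (Real.log (y : ℝ))) atTop atTop :=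
  Real.tendsto_log_atTop.comp (Real.tendsto_log_atTop.comp tendsto_natCast_atTop_atTop)

theorem lll_top : Tendsto (fun y : ℕ => Real.log (Real.log (Real.log (y : ℝ)))) atTop atTop :=
  Real.tendsto_log_atTop.comp ll_top

theorem Gll_zero : Tendsto Gll atTop (𝓝 0) := by
  unfold Gll
  simp only [one_div]
  exact tendsto_inv_atTop_zero.comp (ll_top.atTop_mul_atTop₀ lll_top)

theorem Gll_pos : ∀ᶠ y : ℕ in atTop, 0 < Gll y := by
  filter_upwards [ll_top.eventually_gt_atTop 0, lll_top.eventually_gt_atTop 0] with y h1 h2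
  unfold Gll
  positivity

theorem Gll_slow (η : ℝ) (hη : 0 < η) : ∀ᶠ y : ℕ in atTop, ∀ k : ℕ, Real.sqrt y / 2 ≤ k → k ≤ y →
    Gll k ≤ (1 + η) * Gll y := by
  set ε : ℝ := η / (2 * (1 + η)) with hε
  have hε0 : 0 < ε := by rw [hε]; positivity
  have hε1 : ε < 1 := by
    rw [hε, div_lt_one (by positivity)]
    linarith
  have hε2 : 1 - 2 * ε = 1 / (1 + η) := by
    rw [hε]; field_simp; ring
  have hl : Tendsto (fun y : ℕ => Real.log (y : ℝ)) atTop atTop :=
    Real.tendsto_log_atTop.comp tendsto_natCast_atTop_atTop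
  filter_upwards [hl.eventually_ge_atTop 4, ll_top.eventually_ge_atTop ((2 * Real.log 2) / ε + 2 / (1 - ε)),
    lll_top.eventually_ge_atTop (-Real.log (1 - ε) / ε + 1), eventually_ge_atTop 4]
    with y h1 h2 h3 h4 k hk1 hk2
  have hl20 : 0 < Real.log 2 := Real.log_pos (by norm_num)
  have hl21 : Real.log 2 < 0.7 := by
    have := Real.log_two_lt_d9
    linarith
  have hy0 : (0 : ℝ) < y := by
    have : 0 < y := by omega
    exact_mod_cast this
  have hsq : 0 < Real.sqrt y := Real.sqrt_pos.2 hy0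
  set L := Real.log (y : ℝ) with hL
  set a := Real.log L with ha
  set b := Real.log a with hb
  have hk : (1 / 4) * L ≤ Real.log k := by
    have h5 : Real.log (Real.sqrt y / 2) ≤ Real.log k := Real.log_le_log (by positivity) hk1
    rw [Real.log_div hsq.ne' (by norm_num), Real.log_sqrt hy0.le] at h5
    linarith
  have hkL : 0 < (1 / 4) * L := by linarith
  have hlk : a - 2 * Real.log 2 ≤ Real.log (Real.log k) := by
    have h5 : Real.log ((1 / 4) * L) ≤ Real.log (Real.log k) := Real.log_le_log hkL hk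
    rw [Real.log_mul (by norm_num) (by linarith)] at h5
    have h6 : Real.log (1 / 4) = -(2 * Real.log 2) := by
      rw [one_div, Real.log_inv, show (4 : ℝ) = 2 ^ 2 by norm_num, Real.log_pow]
      push_cast
      ring
    rw [h6] at h5
    linarith
  have h1ε : 0 < 1 - ε := by linarith
  have ha1 : 2 * Real.log 2 ≤ ε * a := by
    have h5 : (2 * Real.log 2) / ε ≤ a := by
      have : 0 < 2 / (1 - ε) := by positivity
      linarith
    rw [div_le_iff₀ hε0] at h5
    linarith
  have ha2 : 2 ≤ (1 - ε) * a := by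
    have h5 : 2 / (1 - ε) ≤ a := by
      have : 0 < (2 * Real.log 2) / ε := by positivity
      linarith
    rw [div_le_iff₀ h1ε] at h5
    linarith
  have hlk' : (1 - ε) * a ≤ Real.log (Real.log k) := by linarith
  have ha0 : 0 < a := by
    by_contra h
    have : (1 - ε) * a ≤ 0 := mul_nonpos_of_nonneg_of_nonpos h1ε.le (not_lt.1 h)
    linarith
  have hllk : (1 - ε) * b ≤ Real.log (Real.log (Real.log k)) := by
    have h5 : Real.log ((1 - ε) * a) ≤ Real.log (Real.log (Real.log k)) :=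
      Real.log_le_log (by linarith) hlk'
    rw [Real.log_mul h1ε.ne' ha0.ne'] at h5
    have h6 : -Real.log (1 - ε) / ε ≤ b := by linarith
    rw [div_le_iff₀ hε0] at h6
    linarith
  have hb0 : 0 < b := by
    have h6 : 0 ≤ -Real.log (1 - ε) / ε := by
      apply div_nonneg _ hε0.le
      have := Real.log_nonpos h1ε.le (by linarith)
      linarith
    linarith
  have hbk : 0 < Real.log (Real.log (Real.log k)) := lt_of_lt_of_le (by positivity) hllk
  have hak : 0 < Real.log (Real.log k) := lt_of_lt_of_le (by positivity) hlk'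
  have hprod : a * b ≤ (1 + η) * (Real.log (Real.log k) * Real.log (Real.log (Real.log k))) := by
    have h5 : ((1 - ε) * a) * ((1 - ε) * b) ≤
        Real.log (Real.log k) * Real.log (Real.log (Real.log k)) := by
      apply mul_le_mul hlk' hllk (by positivity) hak.le
    have h6 : 1 / (1 + η) * (a * b) ≤ ((1 - ε) * a) * ((1 - ε) * b) := by
      rw [← hε2]
      have : ((1 - ε) * a) * ((1 - ε) * b) = (1 - 2 * ε) * (a * b) + ε ^ 2 * (a * b) := by ring
      have : 0 ≤ ε ^ 2 * (a * b) := by positivity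
      linarith
    have h7 := h6.trans h5
    rw [one_div, inv_mul_le_iff₀ (by positivity)] at h7
    linarith
  unfold Gll
  rw [← hL, ← ha, ← hb, mul_one_div, div_le_div_iff₀ (by positivity) (by positivity)]
  linarith

/-- tuples theorem for `1 / (log log y * log log log y)` -/
theorem tuples_Gll {κ : ℝ}
    (hd : ∀ᶠ y : ℕ in atTop, ∃ A : Finset ℕ, A ⊆ Finset.Icc 1 y ∧ Adm A ∧
      (1 + κ / (Real.log (Real.log y) * Real.log (Real.log (Real.log y)))) *
        (Nat.primeCounting y : ℝ) ≤ A.card)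
    {c0 c1 : ℝ} (hc1 : 0 ≤ c1) (hc : c0 + c1 < κ)
    (h : ∀ Y : ℕ, ∃ y : ℕ, Y ≤ y ∧ ∃ X : ℕ, ∀ x : ℕ, X ≤ x →
      (Nat.primeCounting (x + y) : ℝ) - Nat.primeCounting x ≤
        (1 + c0 / (Real.log (Real.log y) * Real.log (Real.log (Real.log y)))) *
          Nat.primeCounting y) (K : ℕ) :
    ∃ A : Finset ℕ, K ≤ A.card ∧ Adm A ∧ ∃ X : ℕ, ∀ x : ℕ, X ≤ x →
      ((A.filter (fun a => (x + a).Prime)).card : ℝ) <
        (1 - c1 / (Real.log (Real.log A.card) *
          Real.log (Real.log (Real.log A.card)))) * A.card := by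
  have e : ∀ (c : ℝ) (y : ℕ), c / (Real.log (Real.log y) * Real.log (Real.log (Real.log y))) =
      c * Gll y := fun c y => by rw [Gll, mul_one_div]
  simp only [e] at hd h ⊢
  have h' : ∀ Y : ℕ, ∃ y : ℕ, Y ≤ y ∧ ∃ X : ℕ, ∀ x : ℕ, X ≤ x →
      (Nat.primeCounting (x + y) : ℝ) - Nat.primeCounting x ≤
        Nat.primeCounting y * (1 + c0 * Gll y) := by
    simpa only [mul_comm (_ : ℝ) (1 + _)] using h
  have hd' : ∀ c : ℝ, c < κ → ∀ᶠ y : ℕ in atTop, ∃ A : Finset ℕ, A ⊆ Finset.Icc 1 y ∧ Adm A ∧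
      (Nat.primeCounting y : ℝ) * (1 + c * Gll y) ≤ A.card := by
    intro c hcκ
    filter_upwards [hd, Gll_pos] with y ⟨A, hA, hA2, hA3⟩ hG
    refine ⟨A, hA, hA2, le_trans ?_ hA3⟩
    rw [mul_comm]
    gcongr
  obtain ⟨A, h1, h2, X, h3⟩ := tuples_G Gll_zero Gll_pos Gll_slow hd' hc1 hc h' K
  refine ⟨A, h1, h2, X, fun x hx => ?_⟩
  rw [mul_comm]
  exact h3 x hx

end RHC
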