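import Pool.Agent.H14.RHC.TuplesG

/-!
# Prime tuples and dense windows, the growth function `log₄ y / (log₂ y * log₃ y)`
-/

set_option autoImplicit false

open Finset Real Filter Topology
open Pool.Agent.H85.Rho hiding PP MM TT

namespace RHC

/-- the growth function `log log log log y / (log log y * log log log y)` -/
noncomputable def Glf (y : ℕ) : ℝ := Real.log (Real.log (Real.log (Real.log y))) /
  (Real.log (Real.log y) * Real.log (Real.log (Real.log y)))

theorem llll_top : Tendsto (fun y : ℕ => Real.log (Real.log (Real.log (Real.log (y : ℝ)))))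
    atTop atTop := Real.tendsto_log_atTop.comp lll_top

theorem Glf_eq (y : ℕ) : Glf y = Real.log (Real.log (Real.log (Real.log y))) * Gll y := by
  rw [Glf, Gll, mul_one_div]

theorem Glf_pos : ∀ᶠ y : ℕ in atTop, 0 < Glf y := by
  filter_upwards [llll_top.eventually_gt_atTop 0, Gll_pos] with y h1 h2
  rw [Glf_eq]
  positivity

theorem Glf_zero : Tendsto Glf atTop (𝓝 0) := by
  have h1 : ∀ᶠ y : ℕ in atTop, Glf y ≤ (Real.log (Real.log (y : ℝ)))⁻¹ := by
    filter_upwards [ll_top.eventually_gt_atTop 0, lll_top.eventually_gt_atTop 0] with y h1 h2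
    unfold Glf
    rw [div_le_iff₀ (by positivity), inv_mul_cancel_left₀ h1.ne']
    exact (Real.log_le_sub_one_of_pos h2).trans (by linarith)
  refine squeeze_zero' (Glf_pos.mono fun y h => h.le) h1 (tendsto_inv_atTop_zero.comp ll_top)

theorem Glf_slow (η : ℝ) (hη : 0 < η) : ∀ᶠ y : ℕ in atTop, ∀ k : ℕ, Real.sqrt y / 2 ≤ k → k ≤ y →
    Glf k ≤ (1 + η) * Glf y := by
  filter_upwards [Gll_slow η hη, llll_top.eventually_gt_atTop 0, Gll_pos,
    ll_top.eventually_ge_atTop 2, lll_top.eventually_gt_atTop 0,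
    (Real.tendsto_log_atTop.comp tendsto_natCast_atTop_atTop).eventually_ge_atTop
      (8 : ℝ), eventually_ge_atTop 4] with y h1 h2 h3 h4 h5 h6 h7 k hk1 hk2
  have h8 := h1 k hk1 hk2
  have hl6 : (8 : ℝ) ≤ Real.log y := h6
  have hy0 : (0 : ℝ) < y := by
    have : 0 < y := by omega
    exact_mod_cast this
  have hsq : 0 < Real.sqrt y := Real.sqrt_pos.2 hy0
  have hl20 : 0 < Real.log 2 := Real.log_pos (by norm_num)
  have hl21 : Real.log 2 < 0.7 := by
    have := Real.log_two_lt_d9
    linarith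
  have hk0 : (0 : ℝ) < k := lt_of_lt_of_le (by positivity) hk1
  have hky : (k : ℝ) ≤ y := by exact_mod_cast hk2
  have hlk : 3 ≤ Real.log k := by
    have h9 : Real.log (Real.sqrt y / 2) ≤ Real.log k := Real.log_le_log (by positivity) hk1
    rw [Real.log_div hsq.ne' (by norm_num), Real.log_sqrt hy0.le] at h9
    linarith
  have hl1 : Real.log k ≤ Real.log y := Real.log_le_log hk0 hky
  have hl2 : Real.log (Real.log k) ≤ Real.log (Real.log y) := Real.log_le_log (by linarith) hl1
  have he3 : 1 < Real.log 3 := by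
    rw [Real.lt_log_iff_exp_lt (by norm_num)]
    exact Real.exp_one_lt_d9.trans (by norm_num)
  have hlk2 : 1 < Real.log (Real.log k) :=
    he3.trans_le (Real.log_le_log (by norm_num) hlk)
  have hl3 : Real.log (Real.log (Real.log k)) ≤ Real.log (Real.log (Real.log y)) :=
    Real.log_le_log (by linarith) hl2
  have hlk3 : 0 < Real.log (Real.log (Real.log k)) := Real.log_pos hlk2
  have hl4 : Real.log (Real.log (Real.log (Real.log k))) ≤
      Real.log (Real.log (Real.log (Real.log y))) := Real.log_le_log hlk3 hl3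
  have hGk : 0 ≤ Gll k := by
    unfold Gll
    positivity
  rw [Glf_eq, Glf_eq]
  calc Real.log (Real.log (Real.log (Real.log k))) * Gll k ≤
        Real.log (Real.log (Real.log (Real.log y))) * Gll k :=
        mul_le_mul_of_nonneg_right hl4 hGk
    _ ≤ Real.log (Real.log (Real.log (Real.log y))) * ((1 + η) * Gll y) :=
        mul_le_mul_of_nonneg_left h8 h2.le
    _ = _ := by ring

/-- tuples theorem for `log₄ y / (log₂ y * log₃ y)` -/
theorem tuples_Glf {κ : ℝ}
    (hd : ∀ c : ℝ, c < κ → ∀ᶠ y : ℕ in atTop, ∃ A : Finset ℕ, A ⊆ Finset.Icc 1 y ∧ Adm A ∧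
      (1 + c * Real.log (Real.log (Real.log (Real.log y))) /
        (Real.log (Real.log y) * Real.log (Real.log (Real.log y)))) *
        (Nat.primeCounting y : ℝ) ≤ A.card)
    {c0 c1 : ℝ} (hc1 : 0 ≤ c1) (hc : c0 + c1 < κ)
    (h : ∀ Y : ℕ, ∃ y : ℕ, Y ≤ y ∧ ∃ X : ℕ, ∀ x : ℕ, X ≤ x →
      (Nat.primeCounting (x + y) : ℝ) - Nat.primeCounting x ≤
        (1 + c0 * Real.log (Real.log (Real.log (Real.log y))) /
          (Real.log (Real.log y) * Real.log (Real.log (Real.log y)))) *
          Nat.primeCounting y) (K : ℕ) :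
    ∃ A : Finset ℕ, K ≤ A.card ∧ Adm A ∧ ∃ X : ℕ, ∀ x : ℕ, X ≤ x →
      ((A.filter (fun a => (x + a).Prime)).card : ℝ) <
        (1 - c1 * Real.log (Real.log (Real.log (Real.log A.card))) /
          (Real.log (Real.log A.card) *
          Real.log (Real.log (Real.log A.card)))) * A.card := by
  have e : ∀ (c : ℝ) (y : ℕ), c * Real.log (Real.log (Real.log (Real.log y))) /
      (Real.log (Real.log y) * Real.log (Real.log (Real.log y))) = c * Glf y :=
    fun c y => by rw [Glf, mul_div_assoc]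
  simp only [e] at hd h ⊢
  have h' : ∀ Y : ℕ, ∃ y : ℕ, Y ≤ y ∧ ∃ X : ℕ, ∀ x : ℕ, X ≤ x →
      (Nat.primeCounting (x + y) : ℝ) - Nat.primeCounting x ≤
        Nat.primeCounting y * (1 + c0 * Glf y) := by
    simpa only [mul_comm (_ : ℝ) (1 + _)] using h
  have hd' : ∀ c : ℝ, c < κ → ∀ᶠ y : ℕ in atTop, ∃ A : Finset ℕ, A ⊆ Finset.Icc 1 y ∧ Adm A ∧
      (Nat.primeCounting y : ℝ) * (1 + c * Glf y) ≤ A.card := by
    intro c hcκ
    filter_upwards [hd c hcκ] with y ⟨A, hA, hA2, hA3⟩
    refine ⟨A, hA, hA2, le_trans (le_of_eq ?_) hA3⟩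
    rw [mul_comm]
  obtain ⟨A, h1, h2, X, h3⟩ := tuples_G Glf_zero Glf_pos Glf_slow hd' hc1 hc h' K
  refine ⟨A, h1, h2, X, fun x hx => ?_⟩
  rw [mul_comm]
  exact h3 x hx

end RHC
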